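import Pool.Agent.Lib.lead.CXBase

namespace Pool.Agent.Results.MP_cb2135_lc.Hard

open Pool.Agent.Lib.CX Finset

/-- the two strings have strip partitions with the same blocks -/
def CommonStrip {α : Type} (S T : List α) : Prop :=
  ∃ B C : List (List α), B.flatten = S ∧ C.flatten = T ∧ (∀ b ∈ B, 2 ≤ b.length) ∧ (∀ b ∈ C, 2 ≤ b.length) ∧ B.Perm C

theorem cut {α : Type} {ok : α → α → Prop} (r : List α) : ∀ (B : List (List α)) (s : List α), B.flatten = s ++ r →
    (∀ b ∈ B, b.IsChain ok) → (∀ x ∈ s.getLast?, ∀ y ∈ r.head?, ¬ok x y) →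
    ∃ B1 B2, B = B1 ++ B2 ∧ B1.flatten = s ∧ B2.flatten = r := by
  intro B
  induction B with
  | nil => intro s h _ _; simp at h; exact ⟨[], [], by simp [h]⟩
  | cons b B ih =>
    intro s h h1 h2
    rcases eq_or_ne s [] with rfl | hs
    · exact ⟨[], _, rfl, rfl, h⟩
    rcases List.append_eq_append_iff.1 h with ⟨a, rfl, e⟩ | ⟨c, rfl, rfl⟩
    · obtain ⟨B1, B2, rfl, rfl, e'⟩ := ih a e (fun b hb => h1 b (List.mem_cons_of_mem _ hb)) fun x hx =>
        h2 x (by rw [List.getLast?_append, Option.mem_def.1 hx]; rfl)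
      exact ⟨b :: B1, B2, rfl, rfl, e'⟩
    · rcases c with _ | ⟨y, c⟩
      · exact ⟨[s], B, by simp⟩
      · exact (h2 _ (List.getLast?_eq_some_getLast hs) y rfl ((List.isChain_append.1 (h1 _ List.mem_cons_self)).2.2 _
          (List.getLast?_eq_some_getLast hs) y rfl)).elim

abbrev V := ℕ × ℕ × ℕ

def ok (p q : ℕ) (x y : V) : Prop := ¬(y.1 = p ∧ x.1 ≤ 6 ∨ x.1 = q ∧ y.1 ≤ 6)

def str (p q r s : ℕ) (I J : List V) (seg : V → List V) : List V :=
  J.flatMap (fun _ => [(r, 0, 0), (s, 0, 0)]) ++ I.flatMap fun i => [(p, 0, 0), (q, 0, 0)] ++ seg i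

theorem decomp {p q : ℕ} (hp : 6 < p) (hq : 6 < q) {seg : V → List V} (h1 : ∀ i, seg i ≠ [])
    (h2 : ∀ i, ∀ x ∈ seg i, x.1 ≤ 6) (I : List V) : I.Nodup → ∀ (U : List V) (B : List (List V)), (∀ x ∈ U, 6 < x.1) →
    B.flatten = U ++ I.flatMap (fun i => [(p, 0, 0), (q, 0, 0)] ++ seg i) → (∀ b ∈ B, b.IsChain (ok p q)) →
    ∃ (g : V → List (List V)) (B' : List (List V)), B.Perm (I.flatMap g ++ B') ∧ (∀ i ∈ I, (g i).flatten = seg i) ∧
      ∀ b ∈ B', ∀ x ∈ b, 6 < x.1 := by
  induction I with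
  | nil =>
    intro _ U B hU e _
    exact ⟨fun _ => [], B, by simp, by simp, fun b hb x hx => hU x (by simpa [e] using List.mem_flatten_of_mem hb hx)⟩
  | cons i I ih =>
    intro hn U B hU e hB
    obtain ⟨B1, B2, rfl, e1, e2⟩ := cut (seg i ++ I.flatMap fun i => [(p, 0, 0), (q, 0, 0)] ++ seg i) B
      (U ++ [(p, 0, 0), (q, 0, 0)]) (by simpa using e) hB (by
        obtain ⟨y, t, e⟩ := List.exists_cons_of_ne_nil (h1 i)
        have := h2 i y (by simp [e])
        simp [ok, e, this])
    obtain ⟨B2, B3, rfl, e2, e3⟩ := cut _ B2 _ e2 (fun b hb => hB b (by simp [hb])) (by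
      intro x hx
      have := h2 i x (List.mem_of_getLast? hx)
      cases I <;> simp [ok, this])
    obtain ⟨g, B', a1, a2, a3⟩ := ih (List.nodup_cons.1 hn).2 [] B3 (by simp) e3 fun b hb => hB b (by simp [hb])
    have k : ∀ j ∈ I, Function.update g i B2 j = g j := fun j hj =>
      Function.update_of_ne (fun h : j = i => (List.nodup_cons.1 hn).1 (h ▸ hj)) _ _
    refine ⟨Function.update g i B2, B' ++ B1, ?_, ?_, ?_⟩
    · rw [List.flatMap_cons, List.flatMap_congr k, Function.update_self]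
      exact List.perm_append_comm.trans (by simpa using (a1.append_left B2).append_right B1)
    · exact List.forall_mem_cons.2 ⟨by simpa using e2, fun j hj => (k j hj).symm ▸ a2 j hj⟩
    · intro b hb x hx
      rcases List.mem_append.1 hb with hb | hb
      · exact a3 b hb x hx
      · have := e1 ▸ List.mem_flatten_of_mem hb hx
        simp at this
        rcases this with h | rfl | rfl
        exacts [hU x h, hp, hq]

theorem chain_str {p q r s : ℕ} (hp : 6 < p) (hq : 6 < q) (hr : 6 < r) (h : r ≠ p ∧ r ≠ q ∧ s ≠ p ∧ s ≠ q)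
    (I J : List V) {seg : V → List V} (h2 : ∀ i, ∀ x ∈ seg i, x.1 ≤ 6) : (str r s p q I J seg).IsChain (ok p q) := by
  refine List.isChain_append.2 ⟨List.Pairwise.isChain (List.pairwise_of_forall_mem_list fun x hx y hy => ?_),
    List.Pairwise.isChain (List.pairwise_of_forall_mem_list fun x hx y hy => ?_), fun x _ y hy => ?_⟩
  · simp only [List.mem_flatMap, List.mem_cons] at hx hy; grind [ok]
  · simp only [List.mem_flatMap, List.mem_cons, List.mem_append] at hx hy; grind [ok]
  · cases I <;> simp at hy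
    subst hy; simp [ok]; omega

def pc (e : V × V) (B : List (List V)) : ℕ := (B.map fun b => (b.zip b.tail).count e).sum

def parts : List V → List (List (List V))
  | [] => [[]]
  | [_] => []
  | a :: b :: t => (parts t).map ([a, b] :: ·) ++ (parts (b :: t)).flatMap fun
    | [] => []
    | c :: r => [(a :: c) :: r]

theorem mem_parts : ∀ (s : List V) (B : List (List V)), B.flatten = s → (∀ b ∈ B, 2 ≤ b.length) → B ∈ parts s
  | [], [], _, _ => by simp [parts]
  | _ :: _, [], h, _ => by simp at h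
  | _, [] :: _, _, h => by simp at h
  | _, [_] :: _, _, h => by simp at h
  | [], (_ :: _) :: _, h, _ => by simp at h
  | [_], (_ :: _ :: _) :: _, h, _ => by simp at h
  | a :: b :: t, [c, d] :: B, h, h' => by
    simp at h; obtain ⟨rfl, rfl, rfl⟩ := h
    simp [parts, mem_parts _ B rfl fun b hb => h' b (by simp [hb])]
  | a :: b :: t, (c :: d :: e :: u) :: B, h, h' => by
    simp at h; obtain ⟨rfl, rfl, h⟩ := h
    refine List.mem_append_right _ (List.mem_flatMap.2 ⟨_, mem_parts _ ((d :: e :: u) :: B) (by simp [h]) ?_, by simp⟩)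
    simpa using fun b hb => h' b (by simp [hb])

theorem seg5 {a b c d e : V} {B} (h : B.flatten = [a, b, c, d, e]) (h' : ∀ b ∈ B, 2 ≤ b.length) :
    ∃ u : Bool × Bool, (u.1 ∨ u.2) ∧ ∀ z, pc z B = (if (a, b) = z then 1 else 0) + (if u.1 ∧ (b, c) = z then 1 else 0) +
      (if u.2 ∧ (c, d) = z then 1 else 0) + (if (d, e) = z then 1 else 0) := by
  have := mem_parts _ _ h h'
  simp [parts] at this
  rcases this with rfl | rfl | rfl
  exacts [⟨(false, true), by simp [pc, List.count_cons]; omega⟩, ⟨(true, false), by simp [pc, List.count_cons]; omega⟩,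
    ⟨(true, true), by simp [pc, List.count_cons]; omega⟩]

theorem seg8 {a b c d e f g : V} {B} (h : B.flatten = [a, b, c, d, e, c, f, g]) (h' : ∀ b ∈ B, 2 ≤ b.length)
    (hc : ∀ b ∈ B, b.count c ≤ 1) : ∃ u : ℕ → Bool, (u 1 ∨ u 2) ∧ (u 4 ∨ u 5) ∧ ¬(u 2 ∧ u 3 ∧ u 4) ∧
      ∀ z, pc z B = (if (a, b) = z then 1 else 0) + (if u 1 ∧ (b, c) = z then 1 else 0) +
      (if u 2 ∧ (c, d) = z then 1 else 0) + (if u 3 ∧ (d, e) = z then 1 else 0) + (if u 4 ∧ (e, c) = z then 1 else 0) +
      (if u 5 ∧ (c, f) = z then 1 else 0) + (if (f, g) = z then 1 else 0) := by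
  have := mem_parts _ _ h h'
  refine ⟨fun k => (B.flatMap fun b => b.tail.map (fun _ => true) ++ [false]).getD k false, ?_⟩
  simp [parts] at this
  rcases this with rfl | rfl | rfl | rfl | rfl | rfl | rfl | rfl | rfl | rfl | rfl | rfl | rfl <;>
    simp [pc, List.count_cons] at hc ⊢ <;> omega

variable (φ : List (T3 ℕ))

def cl (j : ℕ) : T3 ℕ := φ.getD j (0, 0, 0)
def key (x j : ℕ) : ℕ := if x ∈ (cl φ j).vars then 0 else x + 1
def nx (j : ℕ) : ℕ := (j + 1) % φ.length
def idx : List V := List.range 2 ×ˢ List.range (3 * φ.length) ×ˢ List.range φ.length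

def sS (i : V) : List V :=
  if i.1 = 0 then [(1, key φ i.2.1 i.2.2, i.2.2), (2, key φ i.2.1 i.2.2, i.2.2), (0, 0, 0), (3, i.2), (4, i.2), (0, 0, 0),
    (5, key φ i.2.1 (nx φ i.2.2), nx φ i.2.2), (6, key φ i.2.1 (nx φ i.2.2), nx φ i.2.2)] else [(3, i.2), (4, i.2)]
def sT (i : V) : List V :=
  if i.1 = 0 then [(3, i.2), (4, i.2), (0, 0, 0), (3, i.2.1, nx φ i.2.2), (4, i.2.1, nx φ i.2.2)]
  else if i.2.1 = (cl φ i.2.2).1 then [(5, 0, i.2.2), (6, 0, i.2.2), (1, 0, i.2.2), (2, 0, i.2.2), (0, 0, 0)]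
  else if i.2.1 ∈ (cl φ i.2.2).vars then [(0, 0, 0), (5, 0, i.2.2), (6, 0, i.2.2), (1, 0, i.2.2), (2, 0, i.2.2)]
  else [(1, i.2.1 + 1, i.2.2), (2, i.2.1 + 1, i.2.2), (0, 0, 0), (5, i.2.1 + 1, i.2.2), (6, i.2.1 + 1, i.2.2)]
def S := str 7 8 9 10 (idx φ) (idx φ) (sS φ)
def T := str 9 10 7 8 (idx φ) (idx φ) (sT φ)

theorem sum_idx {M : Type} [AddCommMonoid M] (f : V → M) : ((idx φ).map f).sum =
    ∑ j ∈ range φ.length, ∑ x ∈ range (3 * φ.length), (f (0, x, j) + f (1, x, j)) := by
  rw [idx, ← List.sum_toFinset _ (List.nodup_range.product (List.nodup_range.product List.nodup_range)),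
    show List.toFinset _ = range 2 ×ˢ range (3 * φ.length) ×ˢ range φ.length by ext ⟨a, b, c⟩; simp [idx],
    sum_product, sum_range_succ, sum_range_one, ← sum_add_distrib, sum_product_right]

theorem sum_nx {M : Type} [AddCommMonoid M] (f : ℕ → M) : ∑ j ∈ range φ.length, f (nx φ j) = ∑ j ∈ range φ.length, f j := by
  unfold nx
  rcases φ.length with _ | m
  · simp
  · rw [sum_range_succ, sum_range_succ', Nat.mod_self]
    congr 1
    exact sum_congr rfl fun j hj => by rw [Nat.mod_eq_of_lt (by simpa using hj)]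

theorem sum_vars {M : Type} [AddCommMonoid M] {C : T3 ℕ} {n} (h : C.dist ∧ ∀ x ∈ C.vars, x < n) (f : ℕ → M) :
    ∑ x ∈ range n, (if x ∈ C.vars then f x else 0) = f C.1 + f C.2.1 + f C.2.2 := by
  obtain ⟨⟨h1, h2, h3⟩, h4⟩ := h
  rw [← sum_filter, show filter _ _ = {C.1, C.2.1, C.2.2} by ext; simp [T3.vars] at *; grind,
    sum_insert (by simp [*]), sum_pair h3, add_assoc]

variable {φ}

theorem cl_mem {j} (h : j < φ.length) : cl φ j ∈ φ := by simp [cl, h]

theorem yes (h : ∀ C ∈ φ, C.dist ∧ ∀ x ∈ C.vars, x < 3 * φ.length) (hs : SatR one3 φ) : CommonStrip (S φ) (T φ) := by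
  obtain ⟨v, hv⟩ := hs
  let c : V := (0, 0, 0)
  let A : ℕ → ℕ → List V := fun x j => [(1, key φ x j, j), (2, key φ x j, j)] ++ if v x then [c] else []
  let D : ℕ → ℕ → List V := fun x j => (if v x then [] else [c]) ++ [(5, key φ x j, j), (6, key φ x j, j)]
  let P : ℕ → ℕ → List V := fun x j => [(3, x, j), (4, x, j)] ++ if v x then [c] else []
  let Q : ℕ → ℕ → List V := fun x j => (if v x then [] else [c]) ++ [(3, x, j), (4, x, j)]
  let g : V → List (List V) := fun i => if i.1 = 0 then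
    [A i.2.1 i.2.2, if v i.2.1 then P i.2.1 i.2.2 else Q i.2.1 i.2.2, D i.2.1 (nx φ i.2.2)] else [[(3, i.2), (4, i.2)]]
  let k : V → List (List V) := fun i => if i.1 = 0 then [P i.2.1 i.2.2, Q i.2.1 (nx φ i.2.2)]
    else if i.2.1 = (cl φ i.2.2).1 then [[(5, 0, i.2.2), (6, 0, i.2.2)], [(1, 0, i.2.2), (2, 0, i.2.2), c]]
    else if i.2.1 ∈ (cl φ i.2.2).vars then [[c, (5, 0, i.2.2), (6, 0, i.2.2)], [(1, 0, i.2.2), (2, 0, i.2.2)]]
    else [A i.2.1 i.2.2, D i.2.1 i.2.2]
  have fl : ∀ (p q r s : ℕ) (g : V → List (List V)) (seg : V → List V), (∀ i, (g i).flatten = seg i) →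
      ((idx φ).map (fun _ => [(r, 0, 0), (s, 0, 0)]) ++ (idx φ).flatMap fun i => [(p, 0, 0), (q, 0, 0)] :: g i).flatten =
        str p q r s (idx φ) (idx φ) seg := fun p q r s g seg h => by
    rw [List.flatten_append, str]
    congr 1
    induction idx φ with
    | nil => rfl
    | cons i I ih => simp only [List.flatMap_cons, List.flatten_append, ih, List.flatten_cons, h]
  have pm : ∀ (p q : List V) (g : V → List (List V)), (((idx φ).map (fun _ => q) ++
      (idx φ).flatMap fun i => p :: g i : List (List V)) : Multiset (List V)) =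
      ((idx φ).map fun _ => {p} + {q}).sum + ((idx φ).map fun i => (g i : Multiset (List V))).sum := fun p q g => by
    induction idx φ with
    | nil => rfl
    | cons i I ih =>
      simp only [List.map_cons, List.flatMap_cons, List.sum_cons, ← Multiset.coe_add, ← Multiset.cons_coe,
        ← Multiset.singleton_add, List.cons_append] at ih ⊢
      rw [add_add_add_comm, ← ih]; abel
  refine ⟨_, _, fl _ _ _ _ g _ fun i => ?_, fl _ _ _ _ k _ fun i => ?_, ?_, ?_, Multiset.coe_eq_coe.1 ?_⟩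
  · cases h : v i.2.1 <;> simp only [g, sS] <;> split_ifs <;> simp_all [A, D, P, Q, c]
  · cases h : v i.2.1 <;> simp only [k, sT] <;> split_ifs <;> simp_all [A, D, P, Q, c, key]
  · simp only [List.forall_mem_append, List.forall_mem_map, List.forall_mem_flatMap, g]
    refine ⟨by simp, fun i _ => ?_⟩
    split_ifs <;> simp [A, D, P, Q]
  · simp only [List.forall_mem_append, List.forall_mem_map, List.forall_mem_flatMap, k]
    refine ⟨by simp, fun i _ => ?_⟩
    split_ifs <;> simp [A, D, P, Q]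
  rw [pm, pm, add_comm {[(9, 0, 0), _]}, sum_idx φ fun i => (g i : Multiset (List V)),
    sum_idx φ fun i => (k i : Multiset (List V))]
  congr 1
  have e1 : ∀ j, ∑ x ∈ range (3 * φ.length), ((g (0, x, j) : Multiset (List V)) + (g (1, x, j) : Multiset (List V))) =
      ∑ x ∈ range (3 * φ.length), ({A x j} + {P x j} + {Q x j}) + ∑ x ∈ range (3 * φ.length), {D x (nx φ j)} := fun j => by
    rw [← sum_add_distrib]
    refine sum_congr rfl fun x _ => ?_
    cases h : v x <;> simp [g, P, Q, h, ← Multiset.cons_coe, ← Multiset.singleton_add] <;> abel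
  have e2 : ∀ j, ∑ x ∈ range (3 * φ.length), ((k (0, x, j) : Multiset (List V)) + (k (1, x, j) : Multiset (List V))) =
      ∑ x ∈ range (3 * φ.length), ({P x j} + (k (1, x, j) : Multiset (List V))) +
        ∑ x ∈ range (3 * φ.length), {Q x (nx φ j)} := fun j => by
    rw [← sum_add_distrib]
    refine sum_congr rfl fun x _ => ?_
    rw [add_right_comm]; rfl
  simp only [e1, e2]
  rw [sum_add_distrib, sum_add_distrib, sum_nx φ fun j => ∑ x ∈ range (3 * φ.length), {D x j},
    sum_nx φ fun j => ∑ x ∈ range (3 * φ.length), {Q x j}, ← sum_add_distrib, ← sum_add_distrib]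
  refine sum_congr rfl fun j hj => ?_
  have hC := cl_mem (mem_range.1 hj)
  have e3 : ∑ x ∈ range (3 * φ.length), ({A x j} + {D x j} : Multiset (List V)) =
      ∑ x ∈ range (3 * φ.length), (k (1, x, j) : Multiset (List V)) := by
    have sp : ∀ f : ℕ → Multiset (List V), ∑ x ∈ range (3 * φ.length), f x = f (cl φ j).1 + f (cl φ j).2.1 +
        f (cl φ j).2.2 + ∑ x ∈ range (3 * φ.length), if x ∈ (cl φ j).vars then 0 else f x := fun f => by
      rw [← sum_vars (h _ hC) f, ← sum_add_distrib]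
      exact sum_congr rfl fun x _ => by split_ifs <;> simp
    rw [sp, sp fun x => k (1, x, j)]
    congr 1
    · have := hv _ hC
      obtain ⟨h1, h2, h3⟩ := (h _ hC).1
      cases e1 : v (cl φ j).1 <;> cases e2 : v (cl φ j).2.1 <;> cases e3 : v (cl φ j).2.2 <;>
        simp [e1, e2, e3, one3] at this <;>
        simp [A, D, k, key, T3.vars, e1, e2, e3, h1.symm, h2.symm, ← Multiset.cons_coe, ← Multiset.singleton_add] <;>
        abel
    · refine sum_congr rfl fun x _ => ?_
      split_ifs with h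
      · rfl
      · have : x ≠ (cl φ j).1 := fun e => h (by simp [e, T3.vars])
        simp only [k, h, this, if_false, one_ne_zero]; rfl
  simp only [sum_add_distrib] at e3 ⊢
  rw [← e3]; abel

theorem pc_perm {z B C} (h : B.Perm C) : pc z B = pc z C := (h.map _).sum_eq

theorem pc_split (z : V × V) (hz : z.1.1 ≤ 6) (I : List V) (g : V → List (List V)) (B : List (List V))
    (h : ∀ b ∈ B, ∀ x ∈ b, 6 < x.1) : pc z (I.flatMap g ++ B) = (I.map fun i => pc z (g i)).sum := by
  induction I with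
  | nil =>
    refine List.sum_eq_zero (List.forall_mem_map.2 fun b hb => List.count_eq_zero.2 fun e => ?_)
    have := h b hb _ (List.of_mem_zip e).1
    omega
  | cons i I ih => simp only [pc, List.flatMap_cons, List.map_append, List.sum_append, List.map_cons, List.sum_cons] at *; omega

theorem nx_lt {j} (h : j < φ.length) : nx φ j < φ.length := Nat.mod_lt _ (by omega)
theorem nx_inj {i j} (h : i < φ.length) (h' : j < φ.length) : nx φ i = nx φ j ↔ i = j := by
  refine ⟨fun e => ?_, fun e => by rw [e]⟩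
  unfold nx at e
  rcases (Nat.succ_le_of_lt h).eq_or_lt with a | a <;> rcases (Nat.succ_le_of_lt h').eq_or_lt with b | b <;>
    simp_all [Nat.mod_eq_of_lt] <;> omega
theorem nx_surj {j} (h : j < φ.length) : ∃ i < φ.length, nx φ i = j := by
  rcases j with _ | j
  · exact ⟨φ.length - 1, by omega, by rw [nx, Nat.sub_add_cancel h, Nat.mod_self]⟩
  · exact ⟨j, by omega, Nat.mod_eq_of_lt h⟩

theorem k1_aux {x j : ℕ} {z : V × V} {B} (h : B.flatten = sT φ (1, x, j)) (l : ∀ b ∈ B, 2 ≤ b.length)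
    (hz : z.1.1 = 3 ∨ z.1.1 = 4 ∨ z.2.1 = 3 ∨ z.1.2.1 = 0 ∧ z.2.2.1 = 0 ∧
      (z.1.1 = 2 ∧ z.2 = (0, 0, 0) ∨ z.1 = (0, 0, 0) ∧ z.2.1 = 5)) : pc z B =
      if x ∈ (cl φ j).vars ∧ (if x = (cl φ j).1 then ((2, 0, j), (0, 0, 0)) else ((0, 0, 0), (5, 0, j))) = z then 1
      else 0 := by
  simp only [sT, one_ne_zero, if_false] at h
  obtain ⟨⟨z1, z2, z3⟩, z4, z5, z6⟩ := z
  simp only [Prod.mk.injEq] at hz
  split_ifs at h with h1 h2 <;> obtain ⟨_, -, e⟩ := seg5 h l <;> rw [e] <;> clear e h l <;>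
    rcases hz with rfl | rfl | rfl | ⟨rfl, rfl, ⟨rfl, rfl, -, rfl⟩ | ⟨⟨rfl, -, rfl⟩, rfl⟩⟩ <;>
    simp [T3.vars] at * <;> grind

theorem chain_mem {α : Type} {R : α → α → Prop} {B : List (List α)} (h : B.flatten.IsChain R) : ∀ b ∈ B, b.IsChain R :=
  fun b hb => by
    obtain ⟨s, t, e⟩ := List.infix_of_mem_flatten hb
    rw [← e] at h
    exact (List.isChain_append.1 (List.isChain_append.1 h).1).2.1

set_option synthInstance.maxSize 1000 in
theorem fin9 : ∀ a1 a2 a3 b1 b2 b3 c1 c2 c3 : Bool, a2.toNat + b2.toNat + c2.toNat = 1 →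
    a3.toNat + b3.toNat + c3.toNat = 2 → (a1 = false → a2 = true) ∧ (a3 = false → a1 = false) →
    (b1 = false → b2 = true) ∧ (b3 = false → b1 = false) → (c1 = false → c2 = true) ∧ (c3 = false → c1 = false) →
    one3 (!a1) (!b1) (!c1) = true := by decide

theorem no (h : ∀ C ∈ φ, C.dist ∧ ∀ x ∈ C.vars, x < 3 * φ.length) (hs : CommonStrip (S φ) (T φ)) : SatR one3 φ := by
  obtain ⟨B, C, e1, e2, l1, l2, pm⟩ := hs
  have s1 : ∀ i, ∀ x ∈ sS φ i, x.1 ≤ 6 := fun i => by unfold sS; split_ifs <;> simp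
  have s2 : ∀ i, ∀ x ∈ sT φ i, x.1 ≤ 6 := fun i => by unfold sT; split_ifs <;> simp
  have nd : (idx φ).Nodup := List.nodup_range.product (List.nodup_range.product List.nodup_range)
  obtain ⟨g, B', a1, a2, a3⟩ := decomp (p := 7) (q := 8) (by omega) (by omega) (fun i => by unfold sS; split_ifs <;> simp)
    s1 _ nd _ B (by simp only [List.forall_mem_flatMap]; simp) e1 fun b hb => chain_mem (e2 ▸ chain_str (r := 9) (s := 10)
      (by omega) (by omega) (by omega) (by omega) (idx φ) (idx φ) s2) b (pm.subset hb)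
  obtain ⟨k, C', b1, b2, b3⟩ := decomp (p := 9) (q := 10) (by omega) (by omega) (fun i => by unfold sT; split_ifs <;> simp)
    s2 _ nd _ C (by simp only [List.forall_mem_flatMap]; simp) e2 fun b hb => chain_mem (e1 ▸ chain_str (r := 7) (s := 8)
      (by omega) (by omega) (by omega) (by omega) (idx φ) (idx φ) s1) b (pm.symm.subset hb)
  have mi : ∀ {t x j}, t < 2 → x < 3 * φ.length → j < φ.length → (t, x, j) ∈ idx φ := by simp +contextual [idx]
  have m1 : ∀ {i}, i ∈ idx φ → ∀ b ∈ g i, b ∈ B := fun hi b hb =>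
    a1.symm.subset (List.mem_append_left _ (List.mem_flatMap.2 ⟨_, hi, hb⟩))
  have m2 : ∀ {i}, i ∈ idx φ → ∀ b ∈ k i, 2 ≤ b.length := fun hi b hb =>
    l2 _ (b1.symm.subset (List.mem_append_left _ (List.mem_flatMap.2 ⟨_, hi, hb⟩)))
  have c1 : ∀ b ∈ B, b.count (0, 0, 0) ≤ 1 := fun b hb => by
    rcases List.mem_append.1 (b1.subset (pm.subset hb)) with h | h
    · obtain ⟨i, hi, h⟩ := List.mem_flatMap.1 h
      refine ((List.infix_of_mem_flatten h).sublist.count_le _).trans ?_
      rw [b2 i hi, sT]; split_ifs <;> simp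
    · rw [List.count_eq_zero.2 fun e => by simpa using b3 b h _ e]; omega
  choose! u hu using fun (x j : ℕ) (hx : x < 3 * φ.length) (hj : j < φ.length) =>
    seg8 (a2 _ (mi Nat.two_pos hx hj)) (fun b hb => l1 b (m1 (mi Nat.two_pos hx hj) b hb))
      fun b hb => c1 b (m1 (mi Nat.two_pos hx hj) b hb)
  choose! w hw using fun (x j : ℕ) (hx : x < 3 * φ.length) (hj : j < φ.length) =>
    seg5 (b2 _ (mi Nat.two_pos hx hj)) (m2 (mi Nat.two_pos hx hj))
  have g1 : ∀ x j z, x < 3 * φ.length → j < φ.length → pc z (g (1, x, j)) = if ((3, x, j), (4, x, j)) = z then 1 else 0 :=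
    fun x j z hx hj => by
      have := mem_parts _ _ (a2 _ (mi Nat.one_lt_two hx hj)) fun b hb => l1 b (m1 (mi Nat.one_lt_two hx hj) b hb)
      simp [sS, parts] at this
      simp [this, pc, List.count_cons]
  have k1 : ∀ x j z, x < 3 * φ.length → j < φ.length → z.1.1 = 3 ∨ z.1.1 = 4 ∨ z.2.1 = 3 ∨ z.1.2.1 = 0 ∧ z.2.2.1 = 0 ∧
      (z.1.1 = 2 ∧ z.2 = (0, 0, 0) ∨ z.1 = (0, 0, 0) ∧ z.2.1 = 5) → pc z (k (1, x, j)) =
      if x ∈ (cl φ j).vars ∧ (if x = (cl φ j).1 then ((2, 0, j), (0, 0, 0)) else ((0, 0, 0), (5, 0, j))) = z then 1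
      else 0 := fun x j z hx hj hz => by
    exact k1_aux (b2 _ (mi Nat.one_lt_two hx hj)) (m2 (mi Nat.one_lt_two hx hj)) hz
  have eq : ∀ z : V × V, z.1.1 ≤ 6 →
      ∑ j ∈ range φ.length, ∑ x ∈ range (3 * φ.length), (pc z (g (0, x, j)) + pc z (g (1, x, j))) =
      ∑ j ∈ range φ.length, ∑ x ∈ range (3 * φ.length), (pc z (k (0, x, j)) + pc z (k (1, x, j))) := fun z hz => by
    rw [← sum_idx φ fun i => pc z (g i), ← sum_idx φ fun i => pc z (k i), ← pc_split z hz _ _ _ a3,
      ← pc_split z hz _ _ _ b3, pc_perm ((a1.symm.trans pm).trans b1)]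
  have red : ∀ (z : V × V) (f f' : ℕ → ℕ) (j j' : ℕ), z.1.1 ≤ 6 → j < φ.length → j' < φ.length →
      (∀ x < 3 * φ.length, ∀ i < φ.length, pc z (g (0, x, i)) + pc z (g (1, x, i)) = if i = j then f x else 0) →
      (∀ x < 3 * φ.length, ∀ i < φ.length, pc z (k (0, x, i)) + pc z (k (1, x, i)) = if i = j' then f' x else 0) →
      ∑ x ∈ range (3 * φ.length), f x = ∑ x ∈ range (3 * φ.length), f' x := fun z f f' j j' hz hj hj' h1 h2 => by
    have := eq z hz
    rw [sum_congr rfl fun i hi => sum_congr rfl fun x hx => h1 x (mem_range.1 hx) i (mem_range.1 hi),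
      sum_congr rfl fun i hi => sum_congr rfl fun x hx => h2 x (mem_range.1 hx) i (mem_range.1 hi)] at this
    simpa [hj, hj'] using this
  have E1 : ∀ x < 3 * φ.length, ∀ j < φ.length, u x (nx φ j) 2 = (w x j).2 := fun x hx j hj => by
    have := red ((0, 0, 0), (3, x, nx φ j)) (fun y => if y = x then (u x (nx φ j) 2).toNat else 0)
      (fun y => if y = x then (w x j).2.toNat else 0) _ _ (by simp) (nx_lt hj) hj
      (fun y hy i hi => by rw [(hu y i hy hi).2.2.2, g1 y i _ hy hi]; clear * -; simp; grind)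
      fun y hy i hi => by
        rw [(hw y i hy hi).2, k1 y i _ hy hi (by simp)]; have := nx_inj hi hj; clear * - this; simp; grind
    simp only [sum_ite_eq', mem_range, hx, if_true] at this
    revert this; cases u x (nx φ j) 2 <;> cases (w x j).2 <;> simp
  have E2 : ∀ x < 3 * φ.length, ∀ j < φ.length, u x j 4 = (w x j).1 := fun x hx j hj => by
    have := red ((4, x, j), (0, 0, 0)) (fun y => if y = x then (u x j 4).toNat else 0)
      (fun y => if y = x then (w x j).1.toNat else 0) _ _ (by simp) hj hj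
      (fun y hy i hi => by rw [(hu y i hy hi).2.2.2, g1 y i _ hy hi]; clear * -; simp; grind)
      fun y hy i hi => by rw [(hw y i hy hi).2, k1 y i _ hy hi (by simp)]; clear * -; simp; grind
    simp only [sum_ite_eq', mem_range, hx, if_true] at this
    revert this; cases u x j 4 <;> cases (w x j).1 <;> simp
  have E3 : ∀ x < 3 * φ.length, ∀ j < φ.length, u x j 3 = true := fun x hx j hj => by
    obtain ⟨j', hj', e⟩ := nx_surj hj
    have := ((sum_congr rfl fun i hi => sum_congr rfl (g := fun y => if i = j then if y = x then (u x j 3).toNat + 1 else 0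
        else 0) fun y hy => by
          rw [(hu y i (mem_range.1 hy) (mem_range.1 hi)).2.2.2, g1 y i _ (mem_range.1 hy) (mem_range.1 hi)]
          clear * -; simp; grind).symm.trans (eq ((3, x, j), (4, x, j)) (by simp))).trans
      (sum_congr rfl fun i hi => sum_congr rfl (g := fun y => (if i = j then if y = x then 1 else 0 else 0) +
        if i = j' then if y = x then 1 else 0 else 0) fun y hy => by
          rw [(hw y i (mem_range.1 hy) (mem_range.1 hi)).2, k1 y i _ (mem_range.1 hy) (mem_range.1 hi) (by simp)]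
          have := nx_inj (mem_range.1 hi) hj'; clear * - this e; simp; grind)
    simp [hx, hj, hj', sum_add_distrib] at this
    revert this; cases u x j 3 <;> simp
  have E4 : ∀ j < φ.length, (u (cl φ j).1 j 1).toNat + (u (cl φ j).2.1 j 1).toNat + (u (cl φ j).2.2 j 1).toNat = 1 :=
    fun j hj => by
    have := red ((2, 0, j), (0, 0, 0)) (fun y => if y ∈ (cl φ j).vars then (u y j 1).toNat else 0)
      (fun y => if y ∈ (cl φ j).vars then if y = (cl φ j).1 then 1 else 0 else 0) _ _ (by simp) hj hj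
      (fun y hy i hi => by rw [(hu y i hy hi).2.2.2, g1 y i _ hy hi]; clear * -; simp [key]; grind)
      fun y hy i hi => by rw [(hw y i hy hi).2, k1 y i _ hy hi (by simp)]; clear * -; simp; grind
    obtain ⟨h1, h2, h3⟩ := (h _ (cl_mem hj)).1
    rw [sum_vars (h _ (cl_mem hj)), sum_vars (h _ (cl_mem hj))] at this
    simpa [h1.symm, h2.symm] using this
  have E5 : ∀ j < φ.length, (u (cl φ (nx φ j)).1 j 5).toNat + (u (cl φ (nx φ j)).2.1 j 5).toNat +
      (u (cl φ (nx φ j)).2.2 j 5).toNat = 2 := fun j hj => by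
    have := red ((0, 0, 0), (5, 0, nx φ j)) (fun y => if y ∈ (cl φ (nx φ j)).vars then (u y j 5).toNat else 0)
      (fun y => if y ∈ (cl φ (nx φ j)).vars then if y = (cl φ (nx φ j)).1 then 0 else 1 else 0) _ _ (by simp) hj (nx_lt hj)
      (fun y hy i hi => by rw [(hu y i hy hi).2.2.2, g1 y i _ hy hi]; have := nx_inj hi hj; clear * - this; simp [key]; grind)
      fun y hy i hi => by rw [(hw y i hy hi).2, k1 y i _ hy hi (by simp)]; clear * -; simp; grind
    obtain ⟨h1, h2, h3⟩ := (h _ (cl_mem (nx_lt hj))).1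
    rw [sum_vars (h _ (cl_mem (nx_lt hj))), sum_vars (h _ (cl_mem (nx_lt hj)))] at this
    simpa [h1.symm, h2.symm] using this
  have st : ∀ x < 3 * φ.length, ∀ j < φ.length, u x (nx φ j) 2 = false → u x j 2 = false := fun x hx j hj e => by
    have a := (hu x j hx hj).2.2.1; have b := (hw x j hx hj).1; have c := E1 x hx j hj; have d := E2 x hx j hj
    have f := E3 x hx j hj; clear * - a b c d e f; grind
  have dn : ∀ x < 3 * φ.length, ∀ j < φ.length, ∀ i ≤ j, u x j 2 = false → u x i 2 = false := fun x hx j => by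
    induction j with
    | zero => simp
    | succ j ih =>
      intro hj i hi e
      rcases hi.eq_or_lt with rfl | hi
      · exact e
      · exact ih (by omega) i (by omega) (st x hx j (by omega) (by rwa [nx, Nat.mod_eq_of_lt hj]))
  have cst : ∀ x < 3 * φ.length, ∀ j < φ.length, u x j 2 = u x 0 2 := fun x hx j hj => by
    have a := dn x hx j hj 0 (by omega)
    have b := dn x hx (φ.length - 1) (by omega) j (by omega)
    have c := st x hx (φ.length - 1) (by omega)
    rw [nx, Nat.sub_add_cancel (by omega), Nat.mod_self] at c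
    revert a b c
    cases u x j 2 <;> cases u x 0 2 <;> cases u x (φ.length - 1) 2 <;> simp
  refine ⟨fun x => !u x 0 2, fun C hC => ?_⟩
  obtain ⟨j, hj, ec⟩ := List.getElem_of_mem hC
  obtain ⟨i, hi, e⟩ := nx_surj hj
  have e4 := E4 j hj
  have e5 := E5 i hi
  rw [e] at e5
  rw [show cl φ j = C by simp [cl, hj, ec]] at e4 e5
  have k : ∀ x ∈ C.vars, (u x 0 2 = false → u x j 1 = true) ∧ (u x i 5 = false → u x 0 2 = false) := fun x hx => by
    have hx := (h _ hC).2 x hx
    have a := (hu x j hx hj).1; have b := (hu x i hx hi).2.1; have b' := (hu x i hx hi).2.2.1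
    have c := cst x hx j hj; have d := cst x hx i hi; have f := E3 x hx i hi
    clear * - a b b' c d f
    grind
  exact fin9 _ _ _ _ _ _ _ _ _ e4 e5 (k _ (by simp [T3.vars])) (k _ (by simp [T3.vars])) (k _ (by simp [T3.vars]))

theorem CommonStrip.map {α β : Type} (f : α → β) {S T : List α} (h : CommonStrip S T) :
    CommonStrip (S.map f) (T.map f) := by
  obtain ⟨B, C, rfl, rfl, h1, h2, h⟩ := h
  exact ⟨B.map (List.map f), C.map (List.map f), by simp, by simp, by simpa using h1, by simpa using h2, h.map _⟩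

def bal (a : List ℕ × List ℕ) : List ℕ × List ℕ :=
  if ∀ x ∈ a.1 ++ a.2, a.1.count x = a.2.count x then a else ([0], [0])

theorem bal_perm (a) : (bal a).1.Perm (bal a).2 := by
  unfold bal
  split_ifs with h
  · refine List.perm_iff_count.2 fun x => ?_
    by_cases e : x ∈ a.1 ++ a.2
    · exact h x e
    · simp only [List.mem_append, not_or] at e
      rw [List.count_eq_zero.2 e.1, List.count_eq_zero.2 e.2]
  · rfl

theorem bal_iff (a) : CommonStrip (bal a).1 (bal a).2 ↔ CommonStrip a.1 a.2 := by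
  unfold bal
  split_ifs with h
  · rfl
  · refine iff_of_false ?_ ?_
    · rintro ⟨B, -, e, -, h, -⟩
      simpa [parts] using mem_parts [(0, 0, 0)] (B.map (List.map fun _ => (0, 0, 0)))
        (by rw [← List.map_flatten, e]; rfl) (by simpa using h)
    · rintro ⟨B, C, e1, e2, -, -, p⟩
      exact h fun x _ => by rw [← e1, ← e2]; exact p.flatten.count_eq x

theorem pt_ST : PT fun φ => (S φ, T φ) := by
  have h0 : PT fun p : List (T3 ℕ) × ℕ => cl p.1 p.2 := by unfold cl; fun_prop
  have h1 : PT fun p : List (T3 ℕ) × ℕ × ℕ => key p.1 p.2.1 p.2.2 := by unfold key T3.vars; fun_prop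
  have h2 : PT fun p : List (T3 ℕ) × ℕ => nx p.1 p.2 := by unfold nx; fun_prop
  have h3 : PT idx := by unfold idx; fun_prop
  have h4 : PT fun p : List (T3 ℕ) × V => sS p.1 p.2 := by unfold sS; fun_prop
  have h5 : PT fun p : List (T3 ℕ) × V => sT p.1 p.2 := by unfold sT T3.vars; fun_prop
  unfold S T str; fun_prop

set_option synthInstance.maxSize 1000 in
theorem result : NPHard fun I : {a : List ℕ × List ℕ // a.1.Perm a.2} => CommonStrip I.1.1 I.1.2 := by
  refine NPHard.of_one3 (fun φ => ⟨bal ((S φ).map nameOf, (T φ).map nameOf), bal_perm _⟩) (PT.subtype ?_ _)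
    fun φ h => (Iff.trans ⟨fun hs => (yes h hs).map nameOf, fun hs => no h ?_⟩
      (bal_iff ((S φ).map nameOf, (T φ).map nameOf)).symm)
  · have h1 := pt_ST.fst
    have h2 := pt_ST.snd
    exact PT.comp (f := bal) (by unfold bal; fun_prop) (by fun_prop)
  · simpa [Function.invFun_comp nameOf_injective] using hs.map (Function.invFun (nameOf (V := V)))

end Pool.Agent.Results.MP_cb2135_lc.Hard
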